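import Mathlib

/-!
# Online colouring of intervals: lower bound against deterministic and randomized algorithms

Intervals of the line are coded by pairs `(a, l)`, the set of edges `a, ..., a + l`.
-/

set_option autoImplicit false

namespace Pool.Agent.J4.H64.OI

/-- an interval `[a, a + l]` is coded by `(a, l)` -/
abbrev Iv : Type := ℕ × ℕ

/-- A deterministic online colouring is proper. -/
def Proper (B : List Iv → ℕ) : Prop :=
  ∀ (σ : List Iv) (i j : ℕ) (hi : i < σ.length) (hj : j < σ.length), i ≠ j →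
    σ[i].1 ≤ σ[j].1 + σ[j].2 → σ[j].1 ≤ σ[i].1 + σ[i].2 →
    B (σ.take (i + 1)) ≠ B (σ.take (j + 1))

/-- the set of colours used on `σ` -/
def cols (B : List Iv → ℕ) (σ : List Iv) : Finset ℕ :=
  ((List.range σ.length).map (fun i => B (σ.take (i + 1)))).toFinset

/-- the load at `x` -/
def load (σ : List Iv) (x : ℕ) : ℕ := σ.countP (fun p => decide (p.1 ≤ x ∧ x ≤ p.1 + p.2))

/-- the interval `p` of `h` got the colour `c` -/
def Has (B : List Iv → ℕ) (h : List Iv) (p : Iv) (c : ℕ) : Prop :=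
  ∃ u v, h = u ++ p :: v ∧ B (u ++ [p]) = c

theorem mem_cols {B : List Iv → ℕ} {σ : List Iv} {c : ℕ} :
    c ∈ cols B σ ↔ ∃ i < σ.length, B (σ.take (i + 1)) = c := by
  simp [cols]

theorem take_split (σ : List Iv) (i : ℕ) (hi : i < σ.length) :
    σ.take (i + 1) = σ.take i ++ [σ[i]] := by
  rw [List.take_append_getElem]

theorem has_iff {B : List Iv → ℕ} {σ : List Iv} {p : Iv} {c : ℕ} :
    Has B σ p c ↔ ∃ (i : ℕ) (hi : i < σ.length), σ[i] = p ∧ B (σ.take (i + 1)) = c := by
  constructor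
  · rintro ⟨u, v, rfl, hB⟩
    refine ⟨u.length, by simp, by simp, ?_⟩
    rw [← hB]
    congr 1
    rw [List.take_append]
    simp
  · rintro ⟨i, hi, rfl, hB⟩
    refine ⟨σ.take i, σ.drop (i + 1), ?_, ?_⟩
    · rw [List.getElem_cons_drop, List.take_append_drop]
    · rw [← take_split, hB]

theorem Has.mem_cols {B : List Iv → ℕ} {σ : List Iv} {p : Iv} {c : ℕ} (h : Has B σ p c) :
    c ∈ cols B σ := by
  obtain ⟨i, hi, -, hB⟩ := has_iff.1 h
  exact OI.mem_cols.2 ⟨i, hi, hB⟩

theorem exists_has {B : List Iv → ℕ} {σ : List Iv} {c : ℕ} (h : c ∈ cols B σ) :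
    ∃ p ∈ σ, Has B σ p c := by
  obtain ⟨i, hi, hB⟩ := mem_cols.1 h
  exact ⟨σ[i], List.getElem_mem hi, has_iff.2 ⟨i, hi, rfl, hB⟩⟩

theorem Has.left {B : List Iv → ℕ} {σ : List Iv} {p : Iv} {c : ℕ} (h : Has B σ p c)
    (τ : List Iv) : Has B (σ ++ τ) p c := by
  obtain ⟨u, v, rfl, hB⟩ := h
  exact ⟨u, v ++ τ, by simp, hB⟩

theorem Has.right {B : List Iv → ℕ} {σ τ : List Iv} {p : Iv} {c : ℕ}
    (h : Has (fun ρ => B (σ ++ ρ)) τ p c) : Has B (σ ++ τ) p c := by
  obtain ⟨u, v, rfl, hB⟩ := h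
  exact ⟨σ ++ u, v, by simp, by simpa using hB⟩

theorem has_last (B : List Iv → ℕ) (σ : List Iv) (p : Iv) : Has B (σ ++ [p]) p (B (σ ++ [p])) :=
  ⟨σ, [], by simp, rfl⟩

theorem Has.ne {B : List Iv → ℕ} (hB : Proper B) {σ : List Iv} {p q : Iv} {c : ℕ}
    (h : Has B σ p c) (h1 : p.1 ≤ q.1 + q.2) (h2 : q.1 ≤ p.1 + p.2) : B (σ ++ [q]) ≠ c := by
  obtain ⟨i, hi, hp, hc⟩ := has_iff.1 h
  have h3 := hB (σ ++ [q]) i σ.length (by simp; omega) (by simp) (by omega)
  have e1 : (σ ++ [q])[i]'(by simp; omega) = p := by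
    rw [List.getElem_append_left hi, hp]
  have e2 : (σ ++ [q])[σ.length]'(by simp) = q := by simp
  rw [e1, e2] at h3
  have h4 := h3 h1 h2
  have e3 : (σ ++ [q]).take (i + 1) = σ.take (i + 1) := by
    rw [List.take_append_of_le_length (by omega)]
  have e4 : (σ ++ [q]).take (σ.length + 1) = σ ++ [q] := by
    rw [List.take_of_length_le (by simp)]
  rw [e3, e4, hc] at h4
  exact fun h => h4 h.symm

theorem cols_append_subset (B : List Iv → ℕ) (σ τ : List Iv) :
    cols B σ ∪ cols (fun ρ => B (σ ++ ρ)) τ ⊆ cols B (σ ++ τ) := by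
  intro c hc
  rcases Finset.mem_union.1 hc with h | h
  · obtain ⟨p, -, hp⟩ := exists_has h
    exact (hp.left τ).mem_cols
  · obtain ⟨p, -, hp⟩ := exists_has h
    exact hp.right.mem_cols

theorem load_append (σ τ : List Iv) (x : ℕ) : load (σ ++ τ) x = load σ x + load τ x := by
  simp [load, List.countP_append]

theorem load_eq_zero {σ : List Iv} {x : ℕ} (h : ∀ p ∈ σ, ¬ (p.1 ≤ x ∧ x ≤ p.1 + p.2)) :
    load σ x = 0 := by
  unfold load
  rw [List.countP_eq_zero]
  intro p hp
  simpa using h p hp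

/-- shift of an interval -/
def sh (N : ℕ) (p : Iv) : Iv := (p.1 + N, p.2)

theorem Proper.app {B : List Iv → ℕ} (hB : Proper B) (σ : List Iv) :
    Proper (fun ρ => B (σ ++ ρ)) := by
  intro τ i j hi hj hij h1 h2
  have h3 := hB (σ ++ τ) (σ.length + i) (σ.length + j) (by simp; omega) (by simp; omega) (by omega)
  have e : ∀ (k : ℕ) (hk : k < τ.length),
      (σ ++ τ)[σ.length + k]'(by simp; omega) = τ[k] := by
    intro k hk
    rw [List.getElem_append_right (by omega)]
    simp
  rw [e i hi, e j hj] at h3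
  have h4 := h3 h1 h2
  have e2 : ∀ k, (σ ++ τ).take (σ.length + k + 1) = σ ++ τ.take (k + 1) := by
    intro k
    rw [add_assoc, List.take_append]
    simp
  rw [e2, e2] at h4
  exact h4

theorem Proper.shift {B : List Iv → ℕ} (hB : Proper B) (N : ℕ) :
    Proper (fun ρ => B (ρ.map (sh N))) := by
  intro τ i j hi hj hij h1 h2
  have h3 := hB (τ.map (sh N)) i j (by simpa using hi) (by simpa using hj) hij
    (by simp [sh]; omega) (by simp [sh]; omega)
  simpa [List.map_take] using h3

theorem cols_shift (B : List Iv → ℕ) (N : ℕ) (τ : List Iv) :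
    cols (fun ρ => B (ρ.map (sh N))) τ = cols B (τ.map (sh N)) := by
  ext c
  simp [mem_cols, List.map_take]

theorem load_shift (N : ℕ) (τ : List Iv) (x : ℕ) :
    load (τ.map (sh N)) x = if N ≤ x then load τ (x - N) else 0 := by
  split_ifs with h
  · unfold load
    rw [List.countP_map]
    apply List.countP_congr
    intro p _
    have e : ((sh N p).1 ≤ x ∧ x ≤ (sh N p).1 + (sh N p).2) ↔
        (p.1 ≤ x - N ∧ x - N ≤ p.1 + p.2) := by
      show (p.1 + N ≤ x ∧ x ≤ p.1 + N + p.2) ↔ _
      omega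
    simp only [Function.comp, decide_eq_true_eq, e]
  · apply load_eq_zero
    intro p hp
    obtain ⟨q, -, rfl⟩ := List.mem_map.1 hp
    simp only [sh]
    omega

/-- The statement of the deterministic lower bound with uniform bounds. -/
def Det (k : ℕ) : Prop := ∃ n W : ℕ, ∀ B : List Iv → ℕ, Proper B →
  ∃ τ : List Iv, τ.length ≤ n ∧ (∀ p ∈ τ, p.1 + p.2 < W) ∧ (∀ x, load τ x ≤ k + 1) ∧
    3 * k + 1 ≤ (cols B τ).card

theorem det_zero : Det 0 := by
  refine ⟨1, 1, fun B _ => ⟨[(0, 0)], by simp, by simp, ?_, ?_⟩⟩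
  · intro x
    unfold load
    exact (List.countP_le_length).trans (by simp)
  · simp [cols]

/-- A history consisting of `m` blocks, the `i`-th one in the window between `i (W + 1)` and
`(i + 1) (W + 1)`. -/
theorem blocks {k n W : ℕ} (hD : ∀ B : List Iv → ℕ, Proper B →
      ∃ τ : List Iv, τ.length ≤ n ∧ (∀ p ∈ τ, p.1 + p.2 < W) ∧ (∀ x, load τ x ≤ k + 1) ∧
        3 * k + 1 ≤ (cols B τ).card)
    (B : List Iv → ℕ) (hB : Proper B) (m : ℕ) :
    ∃ (h : List Iv) (C : ℕ → Finset ℕ), h.length ≤ m * n ∧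
      (∀ p ∈ h, p.1 + p.2 < m * (W + 1)) ∧ (∀ x, load h x ≤ k + 1) ∧
      (∀ i, load h (i * (W + 1)) = 0) ∧
      ∀ i < m, 3 * k + 1 ≤ (C i).card ∧ ∀ c ∈ C i, ∃ p, Has B h p c ∧
        i * (W + 1) ≤ p.1 ∧ p.1 + p.2 < (i + 1) * (W + 1) := by
  induction m with
  | zero =>
    refine ⟨[], fun _ => ∅, by simp, by simp, by simp [load], by simp [load], ?_⟩
    intro i hi
    omega
  | succ m ih =>
    obtain ⟨h, C, h1, h2, h3, h4, h5⟩ := ih
    have hP : Proper (fun ρ => B (h ++ ρ.map (sh (m * (W + 1) + 1)))) :=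
      Proper.shift (hB.app h) (m * (W + 1) + 1)
    obtain ⟨τ, t1, t2, t3, t4⟩ := hD _ hP
    set τ' := τ.map (sh (m * (W + 1) + 1)) with hτ'
    have hmem : ∀ p ∈ τ', m * (W + 1) + 1 ≤ p.1 ∧ p.1 + p.2 < (m + 1) * (W + 1) := by
      intro p hp
      obtain ⟨q, hq, rfl⟩ := List.mem_map.1 hp
      have := t2 q hq
      simp only [sh]
      constructor
      · omega
      · rw [add_mul, one_mul]
        omega
    refine ⟨h ++ τ', fun i => if i < m then C i else cols (fun ρ => B (h ++ ρ)) τ', ?_, ?_, ?_, ?_, ?_⟩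
    · simp only [List.length_append, hτ', List.length_map, add_mul, one_mul]
      omega
    · intro p hp
      rcases List.mem_append.1 hp with hp | hp
      · exact (h2 p hp).trans_le (Nat.mul_le_mul_right _ (Nat.le_succ m))
      · exact (hmem p hp).2
    · intro x
      rw [load_append]
      by_cases hx : x < m * (W + 1) + 1
      · have : load τ' x = 0 := by
          apply load_eq_zero
          intro p hp
          have := (hmem p hp).1
          omega
        rw [this]
        exact h3 x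
      · have : load h x = 0 := by
          apply load_eq_zero
          intro p hp
          have := h2 p hp
          omega
        rw [this, hτ', load_shift, if_pos (by omega), zero_add]
        exact t3 _
    · intro i
      rw [load_append, h4 i, zero_add]
      apply load_eq_zero
      intro p hp hx
      obtain ⟨q1, q2⟩ := hmem p hp
      have h6 : m * (W + 1) < i * (W + 1) := by omega
      have h7 : i * (W + 1) < (m + 1) * (W + 1) := by omega
      have h8 := lt_of_mul_lt_mul_right h6 (Nat.zero_le _)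
      have h9 := lt_of_mul_lt_mul_right h7 (Nat.zero_le _)
      omega
    · intro i hi
      by_cases him : i < m
      · simp only [him, if_true]
        obtain ⟨g1, g2⟩ := h5 i him
        refine ⟨g1, fun c hc => ?_⟩
        obtain ⟨p, hp1, hp2⟩ := g2 c hc
        exact ⟨p, hp1.left _, hp2⟩
      · have him' : i = m := by omega
        subst him'
        simp only [him, if_false]
        refine ⟨?_, fun c hc => ?_⟩
        · have := cols_shift (fun ρ => B (h ++ ρ)) (i * (W + 1) + 1) τ
          rw [← hτ'] at this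
          rw [← this]
          exact t4
        · obtain ⟨p, hp, hpc⟩ := exists_has hc
          have := hmem p hp
          exact ⟨p, hpc.right, by omega, this.2⟩

theorem load_cons (p : Iv) (σ : List Iv) (x : ℕ) :
    load (p :: σ) x = load σ x + if p.1 ≤ x ∧ x ≤ p.1 + p.2 then 1 else 0 := by
  simp [load, List.countP_cons]

theorem exists_four {s : Finset ℕ} (hs : 3 < s.card) :
    ∃ a ∈ s, ∃ b ∈ s, ∃ c ∈ s, ∃ d ∈ s, a < b ∧ b < c ∧ c < d := by
  let f := s.orderEmbOfFin rfl
  refine ⟨f ⟨0, by omega⟩, Finset.orderEmbOfFin_mem _ _ _, f ⟨1, by omega⟩,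
    Finset.orderEmbOfFin_mem _ _ _, f ⟨2, by omega⟩, Finset.orderEmbOfFin_mem _ _ _,
    f ⟨3, by omega⟩, Finset.orderEmbOfFin_mem _ _ _, ?_, ?_, ?_⟩ <;>
  · apply f.strictMono
    simp

theorem card_three {C : Finset ℕ} {a b c k : ℕ} (hC : 3 * k + 1 ≤ C.card) (ha : a ∉ C)
    (hb : b ∉ C) (hc : c ∉ C) (hab : a ≠ b) (hac : a ≠ c) (hbc : b ≠ c) {U : Finset ℕ}
    (hU : C ⊆ U) (haU : a ∈ U) (hbU : b ∈ U) (hcU : c ∈ U) : 3 * (k + 1) + 1 ≤ U.card := by
  have h1 : insert a (insert b (insert c C)) ⊆ U := by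
    intro x hx
    simp only [Finset.mem_insert] at hx
    rcases hx with rfl | rfl | rfl | hx
    · exact haU
    · exact hbU
    · exact hcU
    · exact hU hx
  have h2 := Finset.card_le_card h1
  rw [Finset.card_insert_of_notMem (by simp [ha, hab, hac]),
    Finset.card_insert_of_notMem (by simp [hb, hbc]), Finset.card_insert_of_notMem hc] at h2
  omega

theorem det_succ {k : ℕ} (hk : Det k) : Det (k + 1) := by
  obtain ⟨n, W, hD⟩ := hk
  set m := 3 * 2 ^ (3 * k + 3) + 1 with hm
  refine ⟨m * n + 4, m * (W + 1) + 1, fun B hB => ?_⟩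
  obtain ⟨h, C, h1, h2, h3, h4, h5⟩ := blocks hD B hB m
  by_cases hbig : 3 * (k + 1) + 1 ≤ (cols B h).card
  · exact ⟨h, by omega, fun p hp => (h2 p hp).trans (Nat.lt_succ_self _),
      fun x => (h3 x).trans (by omega), hbig⟩
  -- four blocks with the same set of colours
  have hmaps : ∀ i ∈ Finset.range m, C i ∈ (cols B h).powerset := by
    intro i hi
    rw [Finset.mem_powerset]
    intro c hc
    obtain ⟨p, hp, -⟩ := (h5 i (Finset.mem_range.1 hi)).2 c hc
    exact hp.mem_cols
  have hcard : (cols B h).powerset.card * 3 < (Finset.range m).card := by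
    rw [Finset.card_powerset, Finset.card_range, hm]
    have : 2 ^ (cols B h).card ≤ 2 ^ (3 * k + 3) := Nat.pow_le_pow_right (by norm_num) (by omega)
    omega
  obtain ⟨D, -, hD4⟩ := Finset.exists_lt_card_fiber_of_mul_lt_card_of_maps_to hmaps hcard
  obtain ⟨i1, m1, i2, m2, i3, m3, i4, m4, l12, l23, l34⟩ := exists_four hD4
  simp only [Finset.mem_filter, Finset.mem_range] at m1 m2 m3 m4
  obtain ⟨b1, c1⟩ := h5 i1 m1.1
  obtain ⟨b2, c2⟩ := h5 i2 m2.1
  obtain ⟨b3, c3⟩ := h5 i3 m3.1
  obtain ⟨b4, c4⟩ := h5 i4 m4.1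
  rw [m1.2] at b1 c1
  rw [m2.2] at b2 c2
  rw [m3.2] at b3 c3
  rw [m4.2] at b4 c4
  -- the gaps
  set e1 := i1 * (W + 1) with he1
  set e2 := (i1 + 1) * (W + 1) with he2
  set e3 := (i2 + 1) * (W + 1) with he3
  set e4 := i4 * (W + 1) with he4
  set e5 := (i4 + 1) * (W + 1) with he5
  have g12 : e1 < e2 := Nat.mul_lt_mul_of_pos_right (by omega) (by omega)
  have g23 : e2 < e3 := Nat.mul_lt_mul_of_pos_right (by omega) (by omega)
  have g34 : e3 < e4 := Nat.mul_lt_mul_of_pos_right (by omega) (by omega)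
  have g45 : e4 < e5 := Nat.mul_lt_mul_of_pos_right (by omega) (by omega)
  have g5m : e5 ≤ m * (W + 1) := Nat.mul_le_mul_right _ (by omega)
  have g2i : e2 ≤ i2 * (W + 1) := Nat.mul_le_mul_right _ (by omega)
  have g3i : e3 ≤ i3 * (W + 1) := Nat.mul_le_mul_right _ (by omega)
  have g3j : (i3 + 1) * (W + 1) ≤ e4 := Nat.mul_le_mul_right _ (by omega)
  have z2 : load h e2 = 0 := h4 _
  have z3 : load h e3 = 0 := h4 _
  have z4 : load h e4 = 0 := h4 _
  set J1 : Iv := (e1, e2 - e1) with hJ1
  set J4 : Iv := (e4, e5 - e4) with hJ4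
  set a := B (h ++ [J1]) with ha
  set b := B (h ++ [J1] ++ [J4]) with hb
  have hsub : ∀ t : List Iv, D ⊆ cols B (h ++ t) := by
    intro t c hc
    obtain ⟨p, hp, -⟩ := c1 c hc
    exact (hp.left t).mem_cols
  have haD : a ∉ D := by
    intro haD
    obtain ⟨p, hp, hp1, hp2⟩ := c1 a haD
    refine Has.ne hB hp (q := J1) ?_ ?_ rfl <;> simp only [hJ1] <;> omega
  have hbD : b ∉ D := by
    intro hbD
    obtain ⟨p, hp, hp1, hp2⟩ := c4 b hbD
    refine Has.ne hB (hp.left [J1]) (q := J4) ?_ ?_ rfl <;> simp only [hJ4] <;> omega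
  have HJ1 : Has B (h ++ [J1]) J1 a := has_last B h J1
  have HJ4 : Has B (h ++ [J1] ++ [J4]) J4 b := has_last B _ J4
  by_cases hab : a = b
  · set J2 : Iv := (e2, e3 - e2) with hJ2
    set J3 : Iv := (e3, e4 - e3) with hJ3
    set c := B (h ++ [J1] ++ [J4] ++ [J2]) with hc
    set d := B (h ++ [J1] ++ [J4] ++ [J2] ++ [J3]) with hd
    have HJ2 : Has B (h ++ [J1] ++ [J4] ++ [J2]) J2 c := has_last B _ J2
    have HJ3 : Has B (h ++ [J1] ++ [J4] ++ [J2] ++ [J3]) J3 d := has_last B _ J3
    have hcD : c ∉ D := by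
      intro hcD
      obtain ⟨p, hp, hp1, hp2⟩ := c2 c hcD
      refine Has.ne hB ((hp.left [J1]).left [J4]) (q := J2) ?_ ?_ rfl <;>
        simp only [hJ2] <;> omega
    have hca : c ≠ a := by
      refine Has.ne hB (HJ1.left [J4]) (q := J2) ?_ ?_ <;> simp only [hJ2, hJ1] <;> omega
    have hdD : d ∉ D := by
      intro hdD
      obtain ⟨p, hp, hp1, hp2⟩ := c3 d hdD
      refine Has.ne hB (((hp.left [J1]).left [J4]).left [J2]) (q := J3) ?_ ?_ rfl <;>
        simp only [hJ3] <;> omega
    have hdc : d ≠ c := by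
      refine Has.ne hB HJ2 (q := J3) ?_ ?_ <;> simp only [hJ2, hJ3] <;> omega
    have hdb : d ≠ b := by
      refine Has.ne hB (HJ4.left [J2]) (q := J3) ?_ ?_ <;> simp only [hJ4, hJ3] <;> omega
    refine ⟨h ++ [J1] ++ [J4] ++ [J2] ++ [J3], by simp; omega, ?_, ?_, ?_⟩
    · intro p hp
      simp only [List.append_assoc, List.mem_append, List.mem_singleton] at hp
      rcases hp with hp | rfl | rfl | rfl | rfl
      · exact (h2 p hp).trans (Nat.lt_succ_self _)
      all_goals simp only [hJ1, hJ2, hJ3, hJ4]; omega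
    · intro x
      simp only [List.append_assoc, load_append, List.cons_append, List.nil_append, load_cons]
      have hx := h3 x
      have n0 : load ([] : List Iv) x = 0 := rfl
      rw [n0]
      by_cases x2 : x = e2
      · subst x2
        rw [z2]
        simp only [hJ1, hJ2, hJ3, hJ4]
        split_ifs <;> omega
      by_cases x3 : x = e3
      · subst x3
        rw [z3]
        simp only [hJ1, hJ2, hJ3, hJ4]
        split_ifs <;> omega
      by_cases x4 : x = e4
      · subst x4
        rw [z4]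
        simp only [hJ1, hJ2, hJ3, hJ4]
        split_ifs <;> omega
      simp only [hJ1, hJ2, hJ3, hJ4]
      split_ifs <;> omega
    · refine card_three b1 haD hcD hdD hca.symm (by rw [hab]; exact hdb.symm) hdc.symm
        (U := cols B (h ++ [J1] ++ [J4] ++ [J2] ++ [J3])) ?_ ?_ ?_ ?_
      · have := hsub ([J1] ++ [J4] ++ [J2] ++ [J3])
        simpa using this
      · exact (((HJ1.left [J4]).left [J2]).left [J3]).mem_cols
      · exact (HJ2.left [J3]).mem_cols
      · exact HJ3.mem_cols
  · set J : Iv := (e2, e4 - e2) with hJ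
    set c := B (h ++ [J1] ++ [J4] ++ [J]) with hc
    have HJ : Has B (h ++ [J1] ++ [J4] ++ [J]) J c := has_last B _ J
    have hcD : c ∉ D := by
      intro hcD
      obtain ⟨p, hp, hp1, hp2⟩ := c2 c hcD
      refine Has.ne hB ((hp.left [J1]).left [J4]) (q := J) ?_ ?_ rfl <;>
        simp only [hJ] <;> omega
    have hca : c ≠ a := by
      refine Has.ne hB (HJ1.left [J4]) (q := J) ?_ ?_ <;> simp only [hJ, hJ1] <;> omega
    have hcb : c ≠ b := by
      refine Has.ne hB HJ4 (q := J) ?_ ?_ <;> simp only [hJ, hJ4] <;> omega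
    refine ⟨h ++ [J1] ++ [J4] ++ [J], by simp; omega, ?_, ?_, ?_⟩
    · intro p hp
      simp only [List.append_assoc, List.mem_append, List.mem_singleton] at hp
      rcases hp with hp | rfl | rfl | rfl
      · exact (h2 p hp).trans (Nat.lt_succ_self _)
      all_goals simp only [hJ1, hJ, hJ4]; omega
    · intro x
      simp only [List.append_assoc, load_append, List.cons_append, List.nil_append, load_cons]
      have hx := h3 x
      have n0 : load ([] : List Iv) x = 0 := rfl
      rw [n0]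
      by_cases x2 : x = e2
      · subst x2
        rw [z2]
        simp only [hJ1, hJ, hJ4]
        split_ifs <;> omega
      by_cases x4 : x = e4
      · subst x4
        rw [z4]
        simp only [hJ1, hJ, hJ4]
        split_ifs <;> omega
      simp only [hJ1, hJ, hJ4]
      split_ifs <;> omega
    · refine card_three b1 haD hbD hcD hab hca.symm hcb.symm
        (U := cols B (h ++ [J1] ++ [J4] ++ [J])) ?_ ?_ ?_ ?_
      · have := hsub ([J1] ++ [J4] ++ [J])
        simpa using this
      · exact ((HJ1.left [J4]).left [J]).mem_cols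
      · exact (HJ4.left [J]).mem_cols
      · exact HJ.mem_cols

theorem det_all (k : ℕ) : Det k := by
  induction k with
  | zero => exact det_zero
  | succ k ih => exact det_succ ih

/-- A finite set of request sequences that contains a bad one for each deterministic algorithm. -/
theorem exists_finset (k : ℕ) : ∃ (T : Finset (List Iv)) (W : ℕ),
    (∀ τ ∈ T, (∀ p ∈ τ, p.1 + p.2 < W) ∧ ∀ x, load τ x ≤ k + 1) ∧
    ∀ B : List Iv → ℕ, Proper B → ∃ τ ∈ T, 3 * k + 1 ≤ (cols B τ).card := by
  classical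
  obtain ⟨n, W, hD⟩ := det_all k
  have hfin : {τ : List Iv | τ.length ≤ n ∧ (∀ p ∈ τ, p.1 + p.2 < W) ∧
      ∀ x, load τ x ≤ k + 1}.Finite := by
    refine Set.Finite.subset (List.finite_length_le (Fin W × Fin W) n |>.image
      (fun l => l.map fun q => ((q.1 : ℕ), (q.2 : ℕ)))) ?_
    rintro τ ⟨h1, h2, -⟩
    refine ⟨τ.pmap (fun (p : Iv) (hp : p.1 + p.2 < W) =>
      ((⟨p.1, by omega⟩ : Fin W), (⟨p.2, by omega⟩ : Fin W))) h2, ?_, ?_⟩
    · simpa using h1
    · simp [List.map_pmap]
  refine ⟨hfin.toFinset, W, ?_, ?_⟩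
  · intro τ hτ
    rw [Set.Finite.mem_toFinset] at hτ
    exact hτ.2
  · intro B hB
    obtain ⟨τ, h1, h2, h3, h4⟩ := hD B hB
    exact ⟨τ, by rw [Set.Finite.mem_toFinset]; exact ⟨h1, h2, h3⟩, h4⟩

open MeasureTheory

section random

variable {Ω : Type} [MeasurableSpace Ω] (μ : Measure Ω) (A : List Iv → Ω → ℕ)

theorem measurable_card (hA : ∀ s, Measurable (A s)) (σ : List Iv) :
    Measurable (fun ω => (cols (fun ρ => A ρ ω) σ).card) := by
  have h1 : Measurable (fun ω => (fun i : Fin σ.length => A (σ.take (i + 1)) ω)) :=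
    measurable_pi_lambda _ fun i => hA _
  have h2 : Measurable (fun v : Fin σ.length → ℕ => (Finset.univ.image v).card) :=
    measurable_of_countable _
  have h3 := h2.comp h1
  convert h3 using 1
  funext ω
  simp only [Function.comp]
  congr 1
  ext c
  rw [mem_cols]
  simp only [Finset.mem_image, Finset.mem_univ, true_and]
  constructor
  · rintro ⟨i, hi, hc⟩
    exact ⟨⟨i, hi⟩, hc⟩
  · rintro ⟨i, hc⟩
    exact ⟨i, i.2, hc⟩

variable [IsProbabilityMeasure μ]

/-- Repeating the guesses. -/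
theorem amplify (hA : ∀ s, Measurable (A s)) (hp : ∀ ω, Proper (fun ρ => A ρ ω)) (k : ℕ)
    (T : Finset (List Iv)) (W : ℕ)
    (hT : ∀ τ ∈ T, (∀ p ∈ τ, p.1 + p.2 < W) ∧ ∀ x, load τ x ≤ k + 1)
    (hT2 : ∀ B : List Iv → ℕ, Proper B → ∃ τ ∈ T, 3 * k + 1 ≤ (cols B τ).card) (t : ℕ) :
    ∃ (σ : List Iv) (N : ℕ), (∀ p ∈ σ, p.1 + p.2 < N) ∧ (∀ x, load σ x ≤ k + 1) ∧
      μ.real {ω | (cols (fun ρ => A ρ ω) σ).card < 3 * k + 1} ≤ (1 - 1 / (T.card : ℝ)) ^ t := by
  have hTne : T.Nonempty := by
    obtain ⟨τ, hτ, -⟩ := hT2 (fun l => l.length) (by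
      intro σ i j hi hj hij _ _
      simp only [List.length_take]
      omega)
    exact ⟨τ, hτ⟩
  have hTpos : (0 : ℝ) < T.card := by exact_mod_cast hTne.card_pos
  induction t with
  | zero =>
    refine ⟨[], 0, by simp, by simp [load], ?_⟩
    rw [pow_zero]
    exact measureReal_le_one
  | succ t ih =>
    obtain ⟨σ, N, h1, h2, h3⟩ := ih
    set E := {ω | (cols (fun ρ => A ρ ω) σ).card < 3 * k + 1} with hE
    let F : List Iv → Set Ω := fun τ =>
      {ω | 3 * k + 1 ≤ (cols (fun ρ => A (σ ++ ρ.map (sh N)) ω) τ).card}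
    have hFm : ∀ τ, MeasurableSet (F τ) := by
      intro τ
      have h4 := measurable_card (fun ρ ω => A (σ ++ ρ.map (sh N)) ω) (fun s => hA _) τ
      exact h4 (measurableSet_Ici (a := 3 * k + 1))
    have hcover : E ⊆ ⋃ τ ∈ T, E ∩ F τ := by
      intro ω hω
      have hP : Proper (fun ρ => A (σ ++ ρ.map (sh N)) ω) :=
        Proper.shift ((hp ω).app σ) N
      obtain ⟨τ, hτ, h5⟩ := hT2 _ hP
      simp only [Set.mem_iUnion]
      exact ⟨τ, hτ, hω, h5⟩
    have hsum : μ.real E ≤ ∑ τ ∈ T, μ.real (E ∩ F τ) := by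
      refine (measureReal_mono hcover (measure_ne_top _ _)).trans ?_
      exact measureReal_biUnion_finset_le _ _
    obtain ⟨τ, hτ, h6⟩ : ∃ τ ∈ T, μ.real E / T.card ≤ μ.real (E ∩ F τ) := by
      apply Finset.exists_le_of_sum_le hTne
      rw [Finset.sum_const, nsmul_eq_mul]
      calc (T.card : ℝ) * (μ.real E / T.card) = μ.real E := by field_simp
        _ ≤ _ := hsum
    refine ⟨σ ++ τ.map (sh N), N + W, ?_, ?_, ?_⟩
    · intro p hp
      rcases List.mem_append.1 hp with hp | hp
      · exact (h1 p hp).trans_le (Nat.le_add_right _ _)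
      · obtain ⟨q, hq, rfl⟩ := List.mem_map.1 hp
        have := (hT τ hτ).1 q hq
        simp only [sh]
        omega
    · intro x
      rw [load_append, load_shift]
      split_ifs with hx
      · have : load σ x = 0 := load_eq_zero fun p hp => by
          have := h1 p hp
          omega
        rw [this, zero_add]
        exact (hT τ hτ).2 _
      · rw [add_zero]
        exact h2 x
    · have hsub : {ω | (cols (fun ρ => A ρ ω) (σ ++ τ.map (sh N))).card < 3 * k + 1} ⊆ E \ F τ := by
        intro ω hω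
        simp only [Set.mem_ofPred_eq] at hω
        have h7 := Finset.card_le_card
          (cols_append_subset (fun ρ => A ρ ω) σ (τ.map (sh N)))
        refine ⟨?_, ?_⟩
        · have h8 := Finset.card_le_card (Finset.subset_union_left
            (s₁ := cols (fun ρ => A ρ ω) σ)
            (s₂ := cols (fun ρ => A (σ ++ ρ) ω) (τ.map (sh N))))
          simp only [hE, Set.mem_ofPred_eq]
          omega
        · intro hF
          have hF' : 3 * k + 1 ≤ (cols (fun ρ => A (σ ++ ρ.map (sh N)) ω) τ).card := hF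
          have h8 := Finset.card_le_card (Finset.subset_union_right
            (s₁ := cols (fun ρ => A ρ ω) σ)
            (s₂ := cols (fun ρ => A (σ ++ ρ) ω) (τ.map (sh N))))
          rw [cols_shift (fun ρ => A (σ ++ ρ) ω) N τ] at hF'
          omega
      have h9 : μ.real (E \ F τ) = μ.real E - μ.real (E ∩ F τ) := by
        rw [eq_sub_iff_add_eq, add_comm]
        exact measureReal_inter_add_sdiff (hFm τ)
      calc μ.real _ ≤ μ.real (E \ F τ) := measureReal_mono hsub
        _ = μ.real E - μ.real (E ∩ F τ) := h9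
        _ ≤ μ.real E - μ.real E / T.card := by linarith
        _ = μ.real E * (1 - 1 / (T.card : ℝ)) := by ring
        _ ≤ (1 - 1 / (T.card : ℝ)) ^ t * (1 - 1 / (T.card : ℝ)) := by
            apply mul_le_mul_of_nonneg_right h3
            rw [sub_nonneg, div_le_one hTpos]
            exact_mod_cast hTne.card_pos
        _ = _ := by rw [pow_succ]

/-- Every randomized algorithm needs at least `3 k + 1` colours in expectation, up to `ε`, on some
sequence of load `k + 1`. -/
theorem expectation (hA : ∀ s, Measurable (A s)) (hp : ∀ ω, Proper (fun ρ => A ρ ω)) (k : ℕ)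
    (v : ℝ) (hv : ∀ σ : List Iv, (∀ x, load σ x ≤ k + 1) →
      ∫ ω, (((cols (fun ρ => A ρ ω) σ).card : ℕ) : ℝ) ∂μ ≤ v) : 3 * (k : ℝ) + 1 ≤ v := by
  obtain ⟨T, W, hT, hT2⟩ := exists_finset k
  have hTne : T.Nonempty := by
    obtain ⟨τ, hτ, -⟩ := hT2 (fun l => l.length) (by
      intro σ i j hi hj hij _ _
      simp only [List.length_take]
      omega)
    exact ⟨τ, hτ⟩
  have hTpos : (0 : ℝ) < T.card := by exact_mod_cast hTne.card_pos
  have key : ∀ t : ℕ, (3 * (k : ℝ) + 1) * (1 - (1 - 1 / (T.card : ℝ)) ^ t) ≤ v := by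
    intro t
    obtain ⟨σ, N, -, h2, h3⟩ := amplify μ A hA hp k T W hT hT2 t
    have h4 := hv σ h2
    have hm := measurable_card A hA σ
    have hint : Integrable (fun ω => (((cols (fun ρ => A ρ ω) σ).card : ℕ) : ℝ)) μ := by
      refine Integrable.of_bound (measurable_from_nat.comp hm).aestronglyMeasurable
        (σ.length : ℝ) (Filter.Eventually.of_forall fun ω => ?_)
      rw [Real.norm_of_nonneg (by positivity)]
      have h5 : (cols (fun ρ => A ρ ω) σ).card ≤ σ.length := by
        unfold cols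
        refine (List.toFinset_card_le _).trans (by simp)
      exact_mod_cast h5
    have h5 := mul_meas_ge_le_integral_of_nonneg
      (Filter.Eventually.of_forall fun ω => by positivity) hint (3 * (k : ℝ) + 1)
    have h6 : μ.real {ω | (3 * (k : ℝ) + 1) ≤ (((cols (fun ρ => A ρ ω) σ).card : ℕ) : ℝ)} =
        1 - μ.real {ω | (cols (fun ρ => A ρ ω) σ).card < 3 * k + 1} := by
      have h7 : {ω | (3 * (k : ℝ) + 1) ≤ (((cols (fun ρ => A ρ ω) σ).card : ℕ) : ℝ)} =
          {ω | (cols (fun ρ => A ρ ω) σ).card < 3 * k + 1}ᶜ := by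
        ext ω
        simp only [Set.mem_ofPred_eq, Set.mem_compl_iff, not_lt]
        exact_mod_cast Iff.rfl
      have h9 : MeasurableSet {ω | (cols (fun ρ => A ρ ω) σ).card < 3 * k + 1} :=
        hm (measurableSet_Iio (a := 3 * k + 1))
      rw [h7, measureReal_compl h9]
      simp
    have h8 : 1 - (1 - 1 / (T.card : ℝ)) ^ t ≤
        μ.real {ω | (3 * (k : ℝ) + 1) ≤ (((cols (fun ρ => A ρ ω) σ).card : ℕ) : ℝ)} := by
      rw [h6]
      linarith
    calc (3 * (k : ℝ) + 1) * (1 - (1 - 1 / (T.card : ℝ)) ^ t) ≤ (3 * (k : ℝ) + 1) * _ :=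
          mul_le_mul_of_nonneg_left h8 (by positivity)
      _ ≤ _ := h5
      _ ≤ v := h4
  have hlim : Filter.Tendsto (fun t : ℕ => (3 * (k : ℝ) + 1) * (1 - (1 - 1 / (T.card : ℝ)) ^ t))
      Filter.atTop (nhds ((3 * (k : ℝ) + 1) * (1 - 0))) := by
    refine Filter.Tendsto.const_mul _ (Filter.Tendsto.const_sub _ ?_)
    apply tendsto_pow_atTop_nhds_zero_of_lt_one
    · rw [sub_nonneg, div_le_one hTpos]
      exact_mod_cast hTne.card_pos
    · have : 0 < 1 / (T.card : ℝ) := by positivity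
      linarith
  have := le_of_tendsto' hlim key
  linarith

end random

end Pool.Agent.J4.H64.OI
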